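import Mathlib

/-!
# A C*-algebra with an approximate identity of projections but no increasing one

Let `B` be a unital C*-algebra with projections `p`, `v n` such that `v n → p`, `p ≠ 1`, and
`1` is the only element `e` of `B` with `p e = p` and `v n e = v n` (for example `B = M_2(ℂ)`,
`p` and `v n` different rank one projections).  For an index set `I` we look at bounded functions
`f (x, y, n) ∈ B` on `I × I × ℕ`.
-/

set_option autoImplicit false
open Filter Topology BoundedContinuousFunction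

namespace Pool.Agent.K9h78.IncProj

/-- The points `(x, y, n)`, with the discrete topology. -/
structure Pt (I : Type) where
  x : I
  y : I
  n : ℕ

instance (I : Type) : TopologicalSpace (Pt I) := ⊥
instance (I : Type) : DiscreteTopology (Pt I) := ⟨rfl⟩

/-- The fibre data. -/
structure Fib (B : Type) [CStarAlgebra B] where
  p : B
  v : ℕ → B
  pp : p * p = p
  ps : star p = p
  vv : ∀ n, v n * v n = v n
  vs : ∀ n, star (v n) = v n
  pne : p ≠ 0
  vne : ∀ n, v n ≠ 0
  pone : p ≠ 1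
  lim : Tendsto v atTop (𝓝 p)
  key : ∀ n e, p * e = p → v n * e = v n → e = 1

variable {B : Type} [CStarAlgebra B] (D : Fib B) {I : Type}

theorem norm_le_one_of_proj {C : Type} [NonUnitalCStarAlgebra C] {e : C} (h1 : e * e = e)
    (h2 : star e = e) : ‖e‖ ≤ 1 :=
  IsStarProjection.norm_le e ⟨h1, h2⟩

/-- The property of lying in the dense subalgebra. -/
def InA0 (f : Pt I →ᵇ B) : Prop :=
  ∃ (F : Finset I) (μ : I → ℂ), (∀ x, x ∉ F → μ x = 0) ∧
     (∀ x y n, (x ∉ F ∨ y ∉ F) → f ⟨x, y, n⟩ = μ x • D.p + μ y • D.v n) ∧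
     (∀ x y, Tendsto (fun n => (1 - D.p) * f ⟨x, y, n⟩) atTop (𝓝 0)) ∧
     (∀ x y, Tendsto (fun n => f ⟨x, y, n⟩ * (1 - D.p)) atTop (𝓝 0))

theorem tendsto_mul_bdd {f g : ℕ → B} {C : ℝ} (hf : Tendsto f atTop (𝓝 0))
    (hg : ∀ n, ‖g n‖ ≤ C) : Tendsto (fun n => f n * g n) atTop (𝓝 0) := by
  rw [tendsto_zero_iff_norm_tendsto_zero] at hf ⊢
  have h0 : Tendsto (fun n => ‖f n‖ * C) atTop (𝓝 0) := by
    simpa using hf.mul_const C
  refine squeeze_zero (fun n => norm_nonneg _) (fun n => ?_) h0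
  exact (norm_mul_le _ _).trans (mul_le_mul_of_nonneg_left (hg n) (norm_nonneg _))

theorem tendsto_bdd_mul {f g : ℕ → B} {C : ℝ} (hf : Tendsto f atTop (𝓝 0))
    (hg : ∀ n, ‖g n‖ ≤ C) : Tendsto (fun n => g n * f n) atTop (𝓝 0) := by
  rw [tendsto_zero_iff_norm_tendsto_zero] at hf ⊢
  have h0 : Tendsto (fun n => C * ‖f n‖) atTop (𝓝 0) := by
    simpa using hf.const_mul C
  refine squeeze_zero (fun n => norm_nonneg _) (fun n => ?_) h0
  exact (norm_mul_le _ _).trans (mul_le_mul_of_nonneg_right (hg n) (norm_nonneg _))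

theorem InA0.add {f g : Pt I →ᵇ B} (hf : InA0 D f) (hg : InA0 D g) : InA0 D (f + g) := by
  classical
  obtain ⟨F, μ, h1, h2, h3, h4⟩ := hf
  obtain ⟨G, ν, k1, k2, k3, k4⟩ := hg
  refine ⟨F ∪ G, fun x => μ x + ν x, ?_, ?_, ?_, ?_⟩
  · intro x hx
    simp only [Finset.mem_union, not_or] at hx
    simp [h1 x hx.1, k1 x hx.2]
  · intro x y n hxy
    simp only [Finset.mem_union, not_or] at hxy
    rw [BoundedContinuousFunction.add_apply,
      h2 x y n (hxy.imp (fun h => h.1) (fun h => h.1)),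
      k2 x y n (hxy.imp (fun h => h.2) (fun h => h.2))]
    simp only [add_smul]
    abel
  · intro x y
    have := (h3 x y).add (k3 x y)
    simpa [mul_add] using this
  · intro x y
    have := (h4 x y).add (k4 x y)
    simpa [add_mul] using this

theorem InA0.zero : InA0 D (0 : Pt I →ᵇ B) := by
  refine ⟨∅, fun _ => 0, ?_, ?_, ?_, ?_⟩ <;> simp

theorem InA0.smul {f : Pt I →ᵇ B} (c : ℂ) (hf : InA0 D f) : InA0 D (c • f) := by
  obtain ⟨F, μ, h1, h2, h3, h4⟩ := hf
  refine ⟨F, fun x => c * μ x, ?_, ?_, ?_, ?_⟩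
  · intro x hx
    simp [h1 x hx]
  · intro x y n hxy
    rw [BoundedContinuousFunction.smul_apply, h2 x y n hxy, smul_add, smul_smul, smul_smul]
  · intro x y
    have := (h3 x y).const_smul c
    simpa using this
  · intro x y
    have := (h4 x y).const_smul c
    simpa using this

theorem InA0.star {f : Pt I →ᵇ B} (hf : InA0 D f) : InA0 D (star f) := by
  obtain ⟨F, μ, h1, h2, h3, h4⟩ := hf
  refine ⟨F, fun x => Star.star (μ x), ?_, ?_, ?_, ?_⟩
  · intro x hx
    simp [h1 x hx]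
  · intro x y n hxy
    rw [BoundedContinuousFunction.star_apply, h2 x y n hxy, star_add, star_smul, star_smul,
      D.ps, D.vs]
  · intro x y
    have := (h4 x y).star
    simpa [star_mul, D.ps] using this
  · intro x y
    have := (h3 x y).star
    simpa [star_mul, D.ps] using this

theorem InA0.mul {f g : Pt I →ᵇ B} (hf : InA0 D f) (hg : InA0 D g) : InA0 D (f * g) := by
  classical
  obtain ⟨F, μ, h1, h2, h3, h4⟩ := hf
  obtain ⟨G, ν, k1, k2, k3, k4⟩ := hg
  refine ⟨F ∪ G, fun x => μ x * ν x, ?_, ?_, ?_, ?_⟩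
  · intro x hx
    simp only [Finset.mem_union, not_or] at hx
    simp [h1 x hx.1]
  · intro x y n hxy
    simp only [Finset.mem_union, not_or] at hxy
    rw [BoundedContinuousFunction.mul_apply,
      h2 x y n (hxy.imp (fun h => h.1) (fun h => h.1)),
      k2 x y n (hxy.imp (fun h => h.2) (fun h => h.2))]
    rcases hxy with hx | hy
    · simp [h1 x hx.1, k1 x hx.2, D.vv, smul_smul, mul_comm]
    · simp [h1 y hy.1, k1 y hy.2, D.pp, smul_smul, mul_comm]
  · intro x y
    have := tendsto_mul_bdd (h3 x y) (fun n => g.norm_coe_le_norm ⟨x, y, n⟩)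
    simpa [mul_assoc] using this
  · intro x y
    have := tendsto_bdd_mul (k4 x y) (fun n => f.norm_coe_le_norm ⟨x, y, n⟩)
    simpa [mul_assoc] using this

/-- The dense subalgebra. -/
noncomputable def A0 (I : Type) : NonUnitalStarSubalgebra ℂ (Pt I →ᵇ B) where
  carrier := {f | InA0 D f}
  add_mem' := InA0.add D
  zero_mem' := InA0.zero D
  mul_mem' := InA0.mul D
  smul_mem' := fun c _ h => InA0.smul D c h
  star_mem' := InA0.star D

/-- The algebra. -/
noncomputable def AA (I : Type) : NonUnitalStarSubalgebra ℂ (Pt I →ᵇ B) := (A0 D I).topologicalClosure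

instance (I : Type) : IsClosed ((AA D I : NonUnitalStarSubalgebra ℂ (Pt I →ᵇ B)) :
    Set (Pt I →ᵇ B)) := (A0 D I).isClosed_topologicalClosure

theorem mem_AA_of_InA0 {f : Pt I →ᵇ B} (h : InA0 D f) : f ∈ AA D I :=
  (A0 D I).le_topologicalClosure h

theorem exists_near {f : Pt I →ᵇ B} (h : f ∈ AA D I) {ε : ℝ} (hε : 0 < ε) :
    ∃ g, InA0 D g ∧ ‖f - g‖ < ε := by
  have h' : f ∈ closure ((A0 D I : NonUnitalStarSubalgebra ℂ (Pt I →ᵇ B)) :
      Set (Pt I →ᵇ B)) := h
  obtain ⟨g, hg, hd⟩ := Metric.mem_closure_iff.1 h' ε hε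
  exact ⟨g, hg, by rwa [dist_eq_norm] at hd⟩

/-! ### The projections `E F N` -/

open Classical in
/-- The values of the projections. -/
noncomputable def Ev (F : Finset I) (N : ℕ) (t : Pt I) : B :=
  if t.x ∈ F then (if t.y ∈ F then (if t.n < N then 1 else D.p) else D.p)
  else (if t.y ∈ F then D.v t.n else 0)

theorem Ev_mul (F : Finset I) (N : ℕ) (t : Pt I) : Ev D F N t * Ev D F N t = Ev D F N t := by
  unfold Ev
  split_ifs <;> simp [D.pp, D.vv]

theorem Ev_star (F : Finset I) (N : ℕ) (t : Pt I) : star (Ev D F N t) = Ev D F N t := by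
  unfold Ev
  split_ifs <;> simp [D.ps, D.vs]

theorem Ev_norm (F : Finset I) (N : ℕ) (t : Pt I) : ‖Ev D F N t‖ ≤ 1 :=
  norm_le_one_of_proj (Ev_mul D F N t) (Ev_star D F N t)

/-- The projections. -/
noncomputable def E (F : Finset I) (N : ℕ) : Pt I →ᵇ B :=
  BoundedContinuousFunction.ofNormedAddCommGroup (Ev D F N) (by fun_prop) 1 (Ev_norm D F N)

theorem E_apply (F : Finset I) (N : ℕ) (t : Pt I) : E D F N t = Ev D F N t := rfl

theorem E_mul (F : Finset I) (N : ℕ) : E D F N * E D F N = E D F N := by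
  ext t
  exact Ev_mul D F N t

theorem E_star (F : Finset I) (N : ℕ) : star (E D F N) = E D F N := by
  ext t
  exact Ev_star D F N t

theorem E_norm (F : Finset I) (N : ℕ) : ‖E D F N‖ ≤ 1 :=
  norm_le_one_of_proj (E_mul D F N) (E_star D F N)

theorem tendsto_pv : Tendsto (fun n => (1 - D.p) * D.v n) atTop (𝓝 0) := by
  have h : Tendsto (fun n => (1 - D.p) * D.v n) atTop (𝓝 ((1 - D.p) * D.p)) :=
    D.lim.const_mul _
  have h2 : (1 - D.p) * D.p = 0 := by rw [sub_mul, one_mul, D.pp, sub_self]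
  rwa [h2] at h

theorem tendsto_vp : Tendsto (fun n => D.v n * (1 - D.p)) atTop (𝓝 0) := by
  have h : Tendsto (fun n => D.v n * (1 - D.p)) atTop (𝓝 (D.p * (1 - D.p))) :=
    D.lim.mul_const _
  have h2 : D.p * (1 - D.p) = 0 := by rw [mul_sub, mul_one, D.pp, sub_self]
  rwa [h2] at h

theorem E_mem0 (F : Finset I) (N : ℕ) : InA0 D (E D F N) := by
  classical
  refine ⟨F, fun x => if x ∈ F then 1 else 0, ?_, ?_, ?_, ?_⟩
  · intro x hx
    simp [hx]
  · intro x y n hxy
    rw [E_apply]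
    unfold Ev
    rcases hxy with hx | hy
    · by_cases hy : y ∈ F <;> simp [hx, hy]
    · by_cases hx : x ∈ F <;> simp [hx, hy]
  · intro x y
    by_cases hx : x ∈ F <;> by_cases hy : y ∈ F
    · refine tendsto_const_nhds.congr' ?_
      filter_upwards [eventually_ge_atTop N] with n hn
      simp [E_apply, Ev, hx, hy, not_lt.2 hn, sub_mul, D.pp]
    · refine tendsto_const_nhds.congr' ?_
      filter_upwards with n
      simp [E_apply, Ev, hx, hy, sub_mul, D.pp]
    · simpa [E_apply, Ev, hx, hy] using tendsto_pv D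
    · simp [E_apply, Ev, hx, hy]
  · intro x y
    by_cases hx : x ∈ F <;> by_cases hy : y ∈ F
    · refine tendsto_const_nhds.congr' ?_
      filter_upwards [eventually_ge_atTop N] with n hn
      simp [E_apply, Ev, hx, hy, not_lt.2 hn, mul_sub, D.pp]
    · refine tendsto_const_nhds.congr' ?_
      filter_upwards with n
      simp [E_apply, Ev, hx, hy, mul_sub, D.pp]
    · simpa [E_apply, Ev, hx, hy] using tendsto_vp D
    · simp [E_apply, Ev, hx, hy]

/-- The projections `E F N` act as approximate units on the dense subalgebra. -/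
theorem approx0 {g : Pt I →ᵇ B} (hg : InA0 D g) {ε : ℝ} (hε : 0 < ε) :
    ∃ F0 : Finset I, ∀ F, F0 ⊆ F → ∃ N0, ∀ N, N0 ≤ N → ‖E D F N * g - g‖ ≤ ε := by
  classical
  obtain ⟨F0, μ, h1, h2, h3, h4⟩ := hg
  refine ⟨F0, fun F hF => ?_⟩
  have hN : ∀ xy : I × I, ∃ N0, ∀ n, N0 ≤ n → ‖(1 - D.p) * g ⟨xy.1, xy.2, n⟩‖ ≤ ε := by
    intro xy
    have := (tendsto_zero_iff_norm_tendsto_zero.1 (h3 xy.1 xy.2)).eventually
      (eventually_le_nhds hε)
    obtain ⟨N0, hN0⟩ := eventually_atTop.1 this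
    exact ⟨N0, hN0⟩
  choose Nf hNf using hN
  refine ⟨(F ×ˢ F).sup Nf, fun N hNN => ?_⟩
  rw [BoundedContinuousFunction.norm_le hε.le]
  rintro ⟨x, y, n⟩
  rw [BoundedContinuousFunction.sub_apply, BoundedContinuousFunction.mul_apply, E_apply]
  unfold Ev
  simp only
  by_cases hx : x ∈ F <;> by_cases hy : y ∈ F
  · by_cases hn : n < N
    · simp [hx, hy, hn, hε.le]
    · simp only [hx, hy, hn, if_true, if_false]
      have h5 : Nf (x, y) ≤ n :=
        (Finset.le_sup (f := Nf) (Finset.mk_mem_product hx hy)).trans (hNN.trans (not_lt.1 hn))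
      have h6 := hNf (x, y) n h5
      rw [sub_mul, one_mul] at h6
      rwa [norm_sub_rev] at h6
  · have hy0 : y ∉ F0 := fun h => hy (hF h)
    rw [h2 x y n (Or.inr hy0), h1 y hy0]
    simp [hx, hy, D.pp, hε.le]
  · have hx0 : x ∉ F0 := fun h => hx (hF h)
    rw [h2 x y n (Or.inl hx0), h1 x hx0]
    simp [hx, hy, D.vv, hε.le]
  · have hx0 : x ∉ F0 := fun h => hx (hF h)
    have hy0 : y ∉ F0 := fun h => hy (hF h)
    rw [h2 x y n (Or.inl hx0), h1 x hx0, h1 y hy0]
    simp [hε.le]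

theorem approx1 {a : Pt I →ᵇ B} (ha : a ∈ AA D I) {ε : ℝ} (hε : 0 < ε) :
    ∃ F0 : Finset I, ∀ F, F0 ⊆ F → ∃ N0, ∀ N, N0 ≤ N → ‖E D F N * a - a‖ ≤ ε := by
  obtain ⟨g, hg, hag⟩ := exists_near D ha (ε := ε / 4) (by positivity)
  obtain ⟨F0, hF0⟩ := approx0 D hg (ε := ε / 4) (by positivity)
  refine ⟨F0, fun F hF => ?_⟩
  obtain ⟨N0, hN0⟩ := hF0 F hF
  refine ⟨N0, fun N hN => ?_⟩
  have h1 := hN0 N hN
  have h2 : E D F N * a - a = E D F N * (a - g) + (E D F N * g - g) - (a - g) := by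
    rw [mul_sub]; abel
  rw [h2]
  have h3 : ‖E D F N * (a - g)‖ ≤ 1 * (ε / 4) :=
    (norm_mul_le _ _).trans (mul_le_mul (E_norm D F N) hag.le (norm_nonneg _) zero_le_one)
  calc ‖E D F N * (a - g) + (E D F N * g - g) - (a - g)‖
      ≤ ‖E D F N * (a - g) + (E D F N * g - g)‖ + ‖a - g‖ := norm_sub_le _ _
    _ ≤ ‖E D F N * (a - g)‖ + ‖E D F N * g - g‖ + ‖a - g‖ := by
        gcongr
        exact norm_add_le _ _
    _ ≤ 1 * (ε / 4) + ε / 4 + ε / 4 := by
        gcongr
    _ ≤ ε := by linarith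

theorem approx2 (S : Finset (AA D I)) {ε : ℝ} (hε : 0 < ε) :
    ∃ F0 : Finset I, ∀ F, F0 ⊆ F → ∃ N0, ∀ N, N0 ≤ N →
      ∀ a ∈ S, ‖E D F N * (a : Pt I →ᵇ B) - a‖ ≤ ε := by
  classical
  induction S using Finset.induction_on with
  | empty => exact ⟨∅, fun F _ => ⟨0, fun N _ a ha => by simp at ha⟩⟩
  | insert a S _ ih =>
    obtain ⟨F1, hF1⟩ := ih
    obtain ⟨F2, hF2⟩ := approx1 D a.2 hε
    refine ⟨F1 ∪ F2, fun F hF => ?_⟩
    obtain ⟨N1, hN1⟩ := hF1 F (Finset.union_subset_left hF)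
    obtain ⟨N2, hN2⟩ := hF2 F (Finset.union_subset_right hF)
    refine ⟨max N1 N2, fun N hN b hb => ?_⟩
    rcases Finset.mem_insert.1 hb with rfl | hb
    · exact hN2 N ((le_max_right _ _).trans hN)
    · exact hN1 N ((le_max_left _ _).trans hN) b hb

theorem approx3 (S : Finset (AA D I)) {ε : ℝ} (hε : 0 < ε) :
    ∃ e : AA D I, e * e = e ∧ star e = e ∧ ∀ a ∈ S, ‖e * a - a‖ ≤ ε := by
  obtain ⟨F, hF⟩ := approx2 D S hε
  obtain ⟨N, hN⟩ := hF F subset_rfl
  refine ⟨⟨E D F N, mem_AA_of_InA0 D (E_mem0 D F N)⟩, ?_, ?_, ?_⟩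
  · exact Subtype.ext (E_mul D F N)
  · exact Subtype.ext (E_star D F N)
  · intro a ha
    exact hN N le_rfl a ha

/-- `AA` has an approximate identity of projections. -/
theorem has_approx : ∃ (Λ : Type) (_ : Preorder Λ) (_ : IsDirected Λ (· ≤ ·)) (_ : Nonempty Λ)
    (e : Λ → AA D I),
        (∀ i, IsIdempotentElem (e i) ∧ IsSelfAdjoint (e i)) ∧
        ∀ a : AA D I, Tendsto (fun i => e i * a) atTop (𝓝 a) ∧
          Tendsto (fun i => a * e i) atTop (𝓝 a) := by
  classical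
  have hpos : ∀ k : ℕ, (0 : ℝ) < 1 / ((k : ℝ) + 1) := fun k => by positivity
  choose e he1 he2 he3 using fun (i : Finset (AA D I) × ℕ) => approx3 D i.1 (hpos i.2)
  have key : ∀ a : AA D I, Tendsto (fun i => e i * a) atTop (𝓝 a) := by
    intro a
    rw [Metric.tendsto_atTop]
    intro ε hε
    obtain ⟨k, hk⟩ := exists_nat_one_div_lt hε
    refine ⟨({a}, k), fun i hi => ?_⟩
    have h1 : a ∈ i.1 := hi.1 (Finset.mem_singleton_self a)
    have h2 := he3 i a h1
    rw [dist_eq_norm]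
    refine (h2.trans ?_).trans_lt hk
    have h3 : (k : ℝ) ≤ i.2 := by exact_mod_cast hi.2
    exact one_div_le_one_div_of_le (by positivity) (by linarith)
  refine ⟨Finset (AA D I) × ℕ, inferInstance, inferInstance, inferInstance, e,
    fun i => ⟨he1 i, he2 i⟩, fun a => ⟨key a, ?_⟩⟩
  have h1 := (key (star a)).star
  refine (h1.congr ?_).trans (by rw [star_star])
  intro i
  rw [star_mul, star_star, he2]

end Pool.Agent.K9h78.IncProj
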