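import Pool.Agent.K9h78.IncProj.Basic

/-!
# No increasing approximate identity of projections when `I` is large
-/

set_option autoImplicit false
open Filter Topology BoundedContinuousFunction

namespace Pool.Agent.K9h78.IncProj

variable {B : Type} [CStarAlgebra B] (D : Fib B) {I : Type}

/-- Away from a countable set of indices, an element of `AA` is a multiple of `p`, `v n` on the
strips. -/
theorem strip {a : Pt I →ᵇ B} (ha : a ∈ AA D I) :
    ∃ C : Set I, C.Countable ∧ ∀ y, y ∉ C → ∀ x n,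
      (∃ c : ℂ, a ⟨x, y, n⟩ = c • D.p) ∧ (∃ c : ℂ, a ⟨y, x, n⟩ = c • D.v n) := by
  have hpos : ∀ k : ℕ, (0 : ℝ) < 1 / ((k : ℝ) + 1) := fun k => by positivity
  choose g hg hag using fun k : ℕ => exists_near D ha (hpos k)
  choose F μ h1 h2 h3 h4 using hg
  have hclosed : ∀ q : B, IsClosed ((Submodule.span ℂ {q} : Submodule ℂ B) : Set B) := fun q =>
    Submodule.closed_of_finiteDimensional _
  have hlim : ∀ t, Tendsto (fun k => g k t) atTop (𝓝 (a t)) := by
    intro t
    rw [Metric.tendsto_atTop]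
    intro ε hε
    obtain ⟨k, hk⟩ := exists_nat_one_div_lt hε
    refine ⟨k, fun j hj => ?_⟩
    rw [dist_comm, dist_eq_norm, ← BoundedContinuousFunction.sub_apply]
    have h3 : (k : ℝ) ≤ j := by exact_mod_cast hj
    exact ((BoundedContinuousFunction.norm_coe_le_norm _ _).trans_lt (hag j)).trans_le
      ((one_div_le_one_div_of_le (by positivity) (by linarith)).trans hk.le)
  refine ⟨⋃ k, (F k : Set I), Set.countable_iUnion fun k => (F k).countable_toSet, ?_⟩
  intro y hy x n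
  have hyk : ∀ k, y ∉ F k := fun k hk => hy (Set.mem_iUnion.2 ⟨k, hk⟩)
  constructor
  · have : a ⟨x, y, n⟩ ∈ ((Submodule.span ℂ {D.p} : Submodule ℂ B) : Set B) := by
      refine (hclosed D.p).mem_of_tendsto (hlim ⟨x, y, n⟩) (Eventually.of_forall fun k => ?_)
      rw [h2 k x y n (Or.inr (hyk k)), h1 k y (hyk k), zero_smul, add_zero]
      exact Submodule.smul_mem _ _ (Submodule.mem_span_singleton_self _)
    obtain ⟨c, hc⟩ := Submodule.mem_span_singleton.1 this
    exact ⟨c, hc.symm⟩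
  · have : a ⟨y, x, n⟩ ∈ ((Submodule.span ℂ {D.v n} : Submodule ℂ B) : Set B) := by
      refine (hclosed (D.v n)).mem_of_tendsto (hlim ⟨y, x, n⟩) (Eventually.of_forall fun k => ?_)
      rw [h2 k y x n (Or.inl (hyk k)), h1 k y (hyk k), zero_smul, zero_add]
      exact Submodule.smul_mem _ _ (Submodule.mem_span_singleton_self _)
    obtain ⟨c, hc⟩ := Submodule.mem_span_singleton.1 this
    exact ⟨c, hc.symm⟩

/-- The corner condition is closed. -/
theorem corner {a : Pt I →ᵇ B} (ha : a ∈ AA D I) (x y : I) :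
    Tendsto (fun n => (1 - D.p) * a ⟨x, y, n⟩) atTop (𝓝 0) := by
  rw [Metric.tendsto_atTop]
  intro ε hε
  set K : ℝ := ‖(1 : B) - D.p‖ + 1 with hK
  have hKpos : 0 < K := by positivity
  obtain ⟨g, ⟨F, μ, h1, h2, h3, h4⟩, hag⟩ := exists_near D ha (ε := ε / (2 * K)) (by positivity)
  obtain ⟨N, hN⟩ := Metric.tendsto_atTop.1 (h3 x y) (ε / 2) (by positivity)
  refine ⟨N, fun n hn => ?_⟩
  have h5 := hN n hn
  rw [dist_zero_right] at h5 ⊢
  have h6 : (1 - D.p) * a ⟨x, y, n⟩ = (1 - D.p) * (a - g) ⟨x, y, n⟩ + (1 - D.p) * g ⟨x, y, n⟩ := by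
    rw [BoundedContinuousFunction.sub_apply, mul_sub]; abel
  rw [h6]
  have h7 : ‖(1 - D.p) * (a - g) ⟨x, y, n⟩‖ ≤ K * (ε / (2 * K)) := by
    refine (norm_mul_le _ _).trans (mul_le_mul (by rw [hK]; linarith) ?_ (norm_nonneg _) hKpos.le)
    exact (BoundedContinuousFunction.norm_coe_le_norm _ _).trans hag.le
  have h8 : K * (ε / (2 * K)) = ε / 2 := by field_simp
  calc _ ≤ _ := norm_add_le _ _
    _ < ε := by linarith

theorem eq_of_smul {q e : B} {c : ℂ} (hq : q ≠ 0) (hqq : q * q = q) (he : e * e = e)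
    (hc : e = c • q) (hn : ‖e * q - q‖ < 1 / 2 * ‖q‖) : e = q := by
  have h1 : (c * c - c) • q = 0 := by
    have : (c • q) * (c • q) = c • q := by rw [← hc]; exact he
    rw [smul_mul_smul_comm, hqq] at this
    rw [sub_smul, this, sub_self]
  have h2 : c * c - c = 0 := (smul_eq_zero.1 h1).resolve_right hq
  have h3 : c * (c - 1) = 0 := by linear_combination h2
  rcases mul_eq_zero.1 h3 with h | h
  · exfalso
    rw [hc, h, zero_smul, zero_mul, zero_sub, norm_neg] at hn
    have : 0 < ‖q‖ := norm_pos_iff.2 hq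
    linarith
  · rw [hc, sub_eq_zero.1 h, one_smul]

theorem norm_proj_eq_one {q : B} (hq : q ≠ 0) (hqq : q * q = q) (hs : star q = q) :
    ‖q‖ = 1 := by
  have h1 : ‖q‖ * ‖q‖ = ‖q‖ := by
    have := CStarRing.norm_star_mul_self (x := q)
    rw [hs, hqq] at this
    exact this.symm
  have h2 : 0 < ‖q‖ := norm_pos_iff.2 hq
  exact mul_right_cancel₀ h2.ne' (by rw [h1, one_mul])

theorem coe_mul' (a b : AA D I) : ((a * b : AA D I) : Pt I →ᵇ B) = (a : Pt I →ᵇ B) * b := rfl

theorem val_mul_eq {a b c : AA D I} (h : a * b = c) (t : Pt I) :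
    (a : Pt I →ᵇ B) t * (b : Pt I →ᵇ B) t = (c : Pt I →ᵇ B) t := by
  rw [← h, coe_mul']
  rfl

theorem near_of_tendsto {C : Type} [NonUnitalCStarAlgebra C] {Λ : Type} [Preorder Λ]
    [IsDirected Λ (· ≤ ·)] [Nonempty Λ] {e : Λ → C} {a : C}
    (h : Tendsto (fun i => e i * a) atTop (𝓝 a)) : ∃ i, ‖e i * a - a‖ < 1 / 2 := by
  have := (tendsto_iff_norm_sub_tendsto_zero.1 h).eventually
    (eventually_lt_nhds (by norm_num : (0 : ℝ) < 1 / 2))
  exact this.exists

theorem norm_coe_sub (a b c : AA D I) :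
    ‖a * b - c‖ = ‖(a : Pt I →ᵇ B) * (b : Pt I →ᵇ B) - (c : Pt I →ᵇ B)‖ := rfl

/-- If `I` is so large that every assignment of countable sets has a free pair, then `AA` has no
increasing approximate identity of projections. -/
theorem no_inc (hfree : ∀ C : I → Set I, (∀ x, (C x).Countable) →
      ∃ x y, x ≠ y ∧ y ∉ C x ∧ x ∉ C y) :
    ¬ (∃ (Λ : Type) (_ : Preorder Λ) (_ : IsDirected Λ (· ≤ ·)) (_ : Nonempty Λ)
      (e : Λ → AA D I),
        (∀ i, IsIdempotentElem (e i) ∧ IsSelfAdjoint (e i)) ∧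
        (∀ i j, i ≤ j → e i * e j = e i) ∧
        ∀ a : AA D I, Tendsto (fun i => e i * a) atTop (𝓝 a) ∧
          Tendsto (fun i => a * e i) atTop (𝓝 a)) := by
  classical
  rintro ⟨Λ, _, _, _, e, hproj, hinc, hlim⟩
  -- the projections `R α`
  have hR : ∀ α : I, E D {α} 0 ∈ AA D I := fun α => mem_AA_of_InA0 D (E_mem0 D {α} 0)
  have hi : ∀ α : I, ∃ i, ‖(e i : Pt I →ᵇ B) * E D {α} 0 - E D {α} 0‖ < 1 / 2 := by
    intro α
    obtain ⟨i, hi⟩ := near_of_tendsto (hlim ⟨E D {α} 0, hR α⟩).1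
    rw [norm_coe_sub] at hi
    exact ⟨i, hi⟩
  choose i hi using hi
  choose C hC hCs using fun α => strip D (e (i α)).2
  have hidem : ∀ j t, (e j : Pt I →ᵇ B) t * (e j : Pt I →ᵇ B) t = (e j : Pt I →ᵇ B) t := by
    intro j t
    exact val_mul_eq D (hproj j).1 t
  have hpt : ∀ α t, ‖(e (i α) : Pt I →ᵇ B) t * E D {α} 0 t - E D {α} 0 t‖ < 1 / 2 := by
    intro α t
    have := (BoundedContinuousFunction.norm_coe_le_norm
      ((e (i α) : Pt I →ᵇ B) * E D {α} 0 - E D {α} 0) t).trans_lt (hi α)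
    simpa using this
  have h1 : ∀ α y n, y ≠ α → y ∉ C α → (e (i α) : Pt I →ᵇ B) ⟨α, y, n⟩ = D.p := by
    intro α y n hy hyC
    obtain ⟨c, hc⟩ := (hCs α y hyC α n).1
    refine eq_of_smul D.pne D.pp (hidem _ _) hc ?_
    have := hpt α ⟨α, y, n⟩
    rw [E_apply] at this
    simp only [Ev, Finset.mem_singleton, if_true, hy, if_false] at this
    rw [norm_proj_eq_one D.pne D.pp D.ps]
    linarith
  have h2 : ∀ α y n, y ≠ α → y ∉ C α → (e (i α) : Pt I →ᵇ B) ⟨y, α, n⟩ = D.v n := by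
    intro α y n hy hyC
    obtain ⟨c, hc⟩ := (hCs α y hyC α n).2
    refine eq_of_smul (D.vne n) (D.vv n) (hidem _ _) hc ?_
    have := hpt α ⟨y, α, n⟩
    rw [E_apply] at this
    simp only [Ev, Finset.mem_singleton, if_true, hy, if_false] at this
    rw [norm_proj_eq_one (D.vne n) (D.vv n) (D.vs n)]
    linarith
  obtain ⟨α, β, hne, hβ, hα⟩ := hfree C hC
  obtain ⟨j, hj1, hj2⟩ := directed_of (· ≤ ·) (i α) (i β)
  have hone : ∀ n, (e j : Pt I →ᵇ B) ⟨α, β, n⟩ = 1 := by
    intro n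
    apply D.key n
    · have h5 := val_mul_eq D (hinc _ _ hj1) ⟨α, β, n⟩
      rwa [h1 α β n hne.symm hβ] at h5
    · have h5 := val_mul_eq D (hinc _ _ hj2) ⟨α, β, n⟩
      rwa [h2 β α n hne hα] at h5
  have hcor := corner D (e j).2 α β
  simp only [hone, mul_one] at hcor
  have h0 : (1 : B) - D.p = 0 := tendsto_nhds_unique tendsto_const_nhds hcor
  exact D.pone (sub_eq_zero.1 h0).symm

/-- The free pair property of a set of size larger than the continuum. -/
theorem free_pair (C : Set ℝ → Set (Set ℝ)) (hC : ∀ x, (C x).Countable) :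
    ∃ x y, x ≠ y ∧ y ∉ C x ∧ x ∉ C y := by
  classical
  -- the family of singletons
  let s : ℝ → Set ℝ := fun t => {t}
  have hs : Function.Injective s := fun a b h => by simpa [s] using h
  let U : Set (Set ℝ) := (⋃ t : ℝ, C (s t)) ∪ Set.range s
  have hU : Cardinal.mk U ≤ Cardinal.continuum := by
    refine (Cardinal.mk_union_le _ _).trans ?_
    refine Cardinal.add_le_of_le Cardinal.aleph0_le_continuum ?_ ?_
    · refine (Cardinal.mk_iUnion_le _).trans ?_
      rw [Cardinal.mk_real]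
      refine (Cardinal.mul_le_max_of_aleph0_le_left Cardinal.aleph0_le_continuum).trans ?_
      refine max_le le_rfl ?_
      refine ciSup_le' fun t => ?_
      exact ((Cardinal.le_aleph0_iff_set_countable).2 (hC _)).trans Cardinal.aleph0_le_continuum
    · refine Cardinal.mk_range_le.trans ?_
      rw [Cardinal.mk_real]
  have hne : ∃ β, β ∉ U := by
    by_contra hcon
    push Not at hcon
    have h1 : U = Set.univ := Set.eq_univ_of_forall hcon
    rw [h1, Cardinal.mk_univ, Cardinal.mk_set, Cardinal.mk_real] at hU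
    exact absurd hU (not_le.2 (Cardinal.cantor _))
  obtain ⟨β, hβ⟩ := hne
  have h2 : ∃ t : ℝ, s t ∉ C β := by
    by_contra hcon
    push Not at hcon
    have h3 : (Set.range s).Countable := (hC β).mono (by rintro _ ⟨t, rfl⟩; exact hcon t)
    have h4 : (Set.univ : Set ℝ).Countable := by
      have := h3.preimage_of_injOn (f := s) hs.injOn
      rwa [Set.preimage_range] at this
    exact Cardinal.not_countable_real h4
  obtain ⟨t, ht⟩ := h2
  refine ⟨s t, β, ?_, ?_, ht⟩
  · rintro rfl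
    exact hβ (Or.inr ⟨t, rfl⟩)
  · intro h
    exact hβ (Or.inl (Set.mem_iUnion.2 ⟨t, h⟩))

end Pool.Agent.K9h78.IncProj
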